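import Pool.Agent.Helper72.MK.Goals

/-! Packet MK-G1: the key inequality on the polar side. -/

open MeasureTheory Set Filter Topology
open scoped ENNReal
open Pool.Agent.Helper47.AQ Pool.Agent.Helper72.MK

noncomputable section

namespace Pool.Agent.Helper60.MK

/-- reflection of one coordinate -/
def fl {n : ℕ} (k : Fin n) (x : Fin n → ℝ) : Fin n → ℝ := fun i => if i = k then - x i else x i

theorem mp_fl {n : ℕ} (k : Fin n) : MeasurePreserving (fl k) volume volume := by
  have h := volume_preserving_pi (α' := fun _ : Fin n => ℝ) (β' := fun _ : Fin n => ℝ)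
    (f := fun i x => if i = k then -x else x) (fun i => by
      by_cases hi : i = k
      · simp only [hi, if_true]
        exact Measure.measurePreserving_neg volume
      · simp only [hi, if_false]
        exact MeasurePreserving.id volume)
  exact h

theorem cont_fl {n : ℕ} (k : Fin n) : Continuous (fl k) := by
  refine continuous_pi fun i => ?_
  unfold fl
  by_cases hi : i = k
  · simp only [hi, if_true]
    fun_prop
  · simp only [hi, if_false]
    fun_prop

theorem sec_closed {M : Set (Fin 3 → ℝ)} (hcl : IsClosed M) (i : Fin 3) : IsClosed (sec i M) := by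
  have hc : Continuous fun y : Fin 2 → ℝ => (i.insertNth (0 : ℝ) y : Fin 3 → ℝ) := by
    refine continuous_pi fun j => ?_
    refine Fin.succAboveCases i ?_ (fun j => ?_) j
    · simp only [Fin.insertNth_apply_same]
      fun_prop
    · simp only [Fin.insertNth_apply_succAbove]
      fun_prop
  exact hcl.preimage hc

theorem insert_neg (i : Fin 3) (y : Fin 2 → ℝ) :
    (i.insertNth (0 : ℝ) (-y) : Fin 3 → ℝ) = -(i.insertNth (0 : ℝ) y : Fin 3 → ℝ) := by
  funext j
  refine Fin.succAboveCases i ?_ (fun j => ?_) j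
  · simp
  · simp

theorem sec_symm {M : Set (Fin 3 → ℝ)} (hsym : ∀ x ∈ M, -x ∈ M) (i : Fin 3) :
    ∀ y ∈ sec i M, -y ∈ sec i M := by
  intro y hy
  unfold sec at hy ⊢
  rw [Set.mem_ofPred_eq] at hy ⊢
  rw [insert_neg]
  exact hsym _ hy

theorem half_real (hH : HALFStmt) {n : ℕ} {A : Set (Fin n → ℝ)} (hA : MeasurableSet A)
    (hsym : ∀ x ∈ A, -x ∈ A) (i : Fin n) :
    (volume (A ∩ {x | 0 < x i})).toReal = (volume A).toReal / 2 := by
  have h := hH n A hA hsym i
  rw [← h, ENNReal.toReal_mul]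
  simp

theorem meas_pos {n : ℕ} (i : Fin n) : MeasurableSet {x : Fin n → ℝ | 0 < x i} :=
  measurableSet_lt measurable_const (measurable_pi_apply i)

theorem ins0 (y : Fin 2 → ℝ) : ((0 : Fin 3).insertNth (0 : ℝ) y : Fin 3 → ℝ) 0 = 0 ∧
    ((0 : Fin 3).insertNth (0 : ℝ) y : Fin 3 → ℝ) 1 = y 0 ∧
    ((0 : Fin 3).insertNth (0 : ℝ) y : Fin 3 → ℝ) 2 = y 1 := by
  refine ⟨Fin.insertNth_apply_same _ _ _, ?_, ?_⟩
  · exact Fin.insertNth_apply_succAbove (α := fun _ : Fin 3 => ℝ) (0 : Fin 3) (0 : ℝ) y 0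
  · exact Fin.insertNth_apply_succAbove (α := fun _ : Fin 3 => ℝ) (0 : Fin 3) (0 : ℝ) y 1

theorem ins1 (y : Fin 2 → ℝ) : ((1 : Fin 3).insertNth (0 : ℝ) y : Fin 3 → ℝ) 0 = y 0 ∧
    ((1 : Fin 3).insertNth (0 : ℝ) y : Fin 3 → ℝ) 1 = 0 ∧
    ((1 : Fin 3).insertNth (0 : ℝ) y : Fin 3 → ℝ) 2 = y 1 := by
  refine ⟨?_, Fin.insertNth_apply_same _ _ _, ?_⟩
  · exact Fin.insertNth_apply_succAbove (α := fun _ : Fin 3 => ℝ) (1 : Fin 3) (0 : ℝ) y 0
  · exact Fin.insertNth_apply_succAbove (α := fun _ : Fin 3 => ℝ) (1 : Fin 3) (0 : ℝ) y 1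

theorem core (hC : CONEStmt) (hH : HALFStmt) {M : Set (Fin 3 → ℝ)} (hconv : Convex ℝ M)
    (hcl : IsClosed M) (hfin : volume M ≠ ⊤) (hsym : ∀ x ∈ M, -x ∈ M)
    (hQ : (volume (M ∩ {x | 0 < x 0 ∧ 0 < x 1})).toReal = (volume M).toReal / 4)
    {c : Fin 3 → ℝ} (hc : c ∈ M) (h0 : 0 ≤ c 0) (h1 : 0 ≤ c 1) :
    c 0 * (volume (sec 0 M)).toReal + c 1 * (volume (sec 1 M)).toReal ≤
      3 / 2 * (volume M).toReal := by
  set Q : Set (Fin 3 → ℝ) := M ∩ {x | 0 < x 0 ∧ 0 < x 1} with hQdef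
  set D : Set (Fin 3 → ℝ) := {x | c 0 * x 1 < c 1 * x 0} with hD
  have hDm : MeasurableSet D := by
    refine measurableSet_lt ?_ ?_ <;> fun_prop
  have hQf : volume Q ≠ ⊤ := ne_top_of_le_ne_top hfin (measure_mono inter_subset_left)
  set H1 : Set (Fin 2 → ℝ) := sec 1 M ∩ {y | 0 < y 0} with hH1
  set H0 : Set (Fin 2 → ℝ) := sec 0 M ∩ {y | 0 < y 0} with hH0
  have m1 : MeasurableSet H1 := (sec_closed hcl 1).measurableSet.inter (meas_pos 0)
  have m0 : MeasurableSet H0 := (sec_closed hcl 0).measurableSet.inter (meas_pos 0)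
  have k1 : ENNReal.ofReal (|c 1| / 3) * volume H1 ≤ volume (Q ∩ D) := by
    rcases h1.eq_or_lt with h | h
    · rw [← h]; simp
    · refine (hC 1 H1 m1 c).trans (measure_mono ?_)
      intro x hx
      rw [Set.mem_ofPred_eq] at hx
      obtain ⟨y, hy, t, ht0, ht1, rfl⟩ := hx
      obtain ⟨e0, e1, e2⟩ := ins1 y
      have hyM : ((1 : Fin 3).insertNth (0 : ℝ) y : Fin 3 → ℝ) ∈ M := hy.1
      have hy0 : 0 < y 0 := hy.2
      have hM : (1 - t) • ((1 : Fin 3).insertNth (0 : ℝ) y : Fin 3 → ℝ) + t • c ∈ M :=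
        hconv hyM hc (by linarith) ht0.le (by ring)
      have p1 : 0 < (1 - t) * y 0 := mul_pos (by linarith) hy0
      have p2 : 0 ≤ t * c 0 := mul_nonneg ht0.le h0
      have p3 : 0 < t * c 1 := mul_pos ht0 h
      refine ⟨⟨hM, ?_, ?_⟩, ?_⟩
      · simp only [Pi.add_apply, Pi.smul_apply, smul_eq_mul, e0]
        linarith
      · simp only [Pi.add_apply, Pi.smul_apply, smul_eq_mul, e1]
        linarith
      · rw [hD, Set.mem_ofPred_eq]
        simp only [Pi.add_apply, Pi.smul_apply, smul_eq_mul, e0, e1]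
        nlinarith [mul_pos h p1]
  have k0 : ENNReal.ofReal (|c 0| / 3) * volume H0 ≤ volume (Q \ D) := by
    rcases h0.eq_or_lt with h | h
    · rw [← h]; simp
    · refine (hC 0 H0 m0 c).trans (measure_mono ?_)
      intro x hx
      rw [Set.mem_ofPred_eq] at hx
      obtain ⟨y, hy, t, ht0, ht1, rfl⟩ := hx
      obtain ⟨e0, e1, e2⟩ := ins0 y
      have hyM : ((0 : Fin 3).insertNth (0 : ℝ) y : Fin 3 → ℝ) ∈ M := hy.1
      have hy0 : 0 < y 0 := hy.2
      have hM : (1 - t) • ((0 : Fin 3).insertNth (0 : ℝ) y : Fin 3 → ℝ) + t • c ∈ M :=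
        hconv hyM hc (by linarith) ht0.le (by ring)
      have p1 : 0 < (1 - t) * y 0 := mul_pos (by linarith) hy0
      have p2 : 0 ≤ t * c 1 := mul_nonneg ht0.le h1
      have p3 : 0 < t * c 0 := mul_pos ht0 h
      refine ⟨⟨hM, ?_, ?_⟩, ?_⟩
      · simp only [Pi.add_apply, Pi.smul_apply, smul_eq_mul, e0]
        linarith
      · simp only [Pi.add_apply, Pi.smul_apply, smul_eq_mul, e1]
        linarith
      · rw [hD, Set.mem_ofPred_eq]
        simp only [Pi.add_apply, Pi.smul_apply, smul_eq_mul, e0, e1]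
        nlinarith [mul_pos h p1]
  have ksum : ENNReal.ofReal (|c 1| / 3) * volume H1 + ENNReal.ofReal (|c 0| / 3) * volume H0 ≤
      volume Q := by
    rw [← measure_inter_add_sdiff Q hDm]
    exact add_le_add k1 k0
  have f1 : ENNReal.ofReal (|c 1| / 3) * volume H1 ≠ ⊤ :=
    ne_top_of_le_ne_top hQf (le_trans le_self_add ksum)
  have f0 : ENNReal.ofReal (|c 0| / 3) * volume H0 ≠ ⊤ :=
    ne_top_of_le_ne_top hQf (le_trans le_add_self ksum)
  have kr := ENNReal.toReal_mono hQf ksum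
  rw [ENNReal.toReal_add f1 f0, ENNReal.toReal_mul, ENNReal.toReal_mul,
    ENNReal.toReal_ofReal (by positivity), ENNReal.toReal_ofReal (by positivity), hQ,
    half_real hH (sec_closed hcl 1).measurableSet (sec_symm hsym 1) 0,
    half_real hH (sec_closed hcl 0).measurableSet (sec_symm hsym 0) 0,
    abs_of_nonneg h0, abs_of_nonneg h1] at kr
  linarith

theorem g1 (hC : CONEStmt) (hH : HALFStmt) : G1Stmt := by
  intro M hM hsym hQ c hc
  have hcl : IsClosed M := hM.comp.isClosed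
  have hmeas : MeasurableSet M := hcl.measurableSet
  have hfin : volume M ≠ ⊤ := hM.comp.measure_ne_top
  have hconv := hM.conv
  -- the reflected body
  set M' : Set (Fin 3 → ℝ) := fl 1 ⁻¹' M with hM'
  have hcl' : IsClosed M' := hcl.preimage (cont_fl 1)
  have hconv' : Convex ℝ M' := by
    intro x hx y hy a b ha hb hab
    have h := hconv hx hy ha hb hab
    rw [hM', Set.mem_preimage]
    convert h using 1
    funext i
    simp only [fl, Pi.add_apply, Pi.smul_apply, smul_eq_mul]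
    split_ifs <;> ring
  have hsym' : ∀ x ∈ M', -x ∈ M' := by
    intro x hx
    have h := hsym _ hx
    rw [hM', Set.mem_preimage]
    convert h using 1
    funext i
    simp only [fl, Pi.neg_apply]
    split_ifs <;> ring
  have hvol' : volume M' = volume M := (mp_fl 1).measure_preimage hmeas.nullMeasurableSet
  have hsec1 : sec 1 M' = sec 1 M := by
    ext y
    unfold sec
    rw [Set.mem_ofPred_eq, Set.mem_ofPred_eq, hM', Set.mem_preimage]
    have : fl 1 ((1 : Fin 3).insertNth (0 : ℝ) y : Fin 3 → ℝ) =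
        ((1 : Fin 3).insertNth (0 : ℝ) y : Fin 3 → ℝ) := by
      funext i
      unfold fl
      split_ifs with hi
      · subst hi
        simp
      · rfl
    rw [this]
  have hsec0 : sec 0 M' = fl 0 ⁻¹' sec 0 M := by
    ext y
    unfold sec
    simp only [Set.mem_ofPred_eq, Set.mem_preimage, hM']
    have : fl 1 ((0 : Fin 3).insertNth (0 : ℝ) y : Fin 3 → ℝ) =
        ((0 : Fin 3).insertNth (0 : ℝ) (fl 0 y) : Fin 3 → ℝ) := by
      obtain ⟨a0, a1, a2⟩ := ins0 y
      obtain ⟨b0, b1, b2⟩ := ins0 (fl 0 y)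
      funext i
      unfold fl at b0 b1 b2 ⊢
      fin_cases i
      · simp only [Fin.zero_eta, Fin.mk_one, Fin.reduceFinMk]
        rw [b0, a0]; simp
      · simp only [Fin.zero_eta, Fin.mk_one, Fin.reduceFinMk]
        rw [b1, a1]; simp
      · simp only [Fin.zero_eta, Fin.mk_one, Fin.reduceFinMk]
        rw [b2, a2]; simp
    rw [this]
  have hvs0 : volume (sec 0 M') = volume (sec 0 M) := by
    rw [hsec0]
    exact (mp_fl 0).measure_preimage (sec_closed hcl 0).measurableSet.nullMeasurableSet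
  -- the other quadrant
  have hnull : volume (M ∩ {x | x 1 = 0}) = 0 := by
    have hm : MeasurableSet (M ∩ {x : Fin 3 → ℝ | x 1 = 0}) :=
      hmeas.inter (measurableSet_eq_fun (measurable_pi_apply 1) measurable_const)
    have h := hH 3 (M ∩ {x | x 1 = 0}) hm (by
      rintro x ⟨hx, hx1⟩
      refine ⟨hsym x hx, ?_⟩
      rw [Set.mem_ofPred_eq] at hx1 ⊢
      rw [Pi.neg_apply, hx1, neg_zero]) 1
    rw [← h]
    have : M ∩ {x : Fin 3 → ℝ | x 1 = 0} ∩ {x | 0 < x 1} = ∅ := by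
      ext x
      simp only [Set.mem_inter_iff, Set.mem_ofPred_eq, Set.mem_empty_iff_false, iff_false, not_and]
      rintro ⟨-, h1⟩
      rw [h1]
      exact lt_irrefl 0
    rw [this]
    simp
  have hquad : (volume (M ∩ {x | 0 < x 0 ∧ x 1 < 0})).toReal = (volume M).toReal / 4 := by
    have hhalf := half_real hH hmeas hsym 0
    have s1 := measure_inter_add_sdiff (μ := volume) (M ∩ {x : Fin 3 → ℝ | 0 < x 0})
      (meas_pos (1 : Fin 3))
    have s2 : volume ((M ∩ {x : Fin 3 → ℝ | 0 < x 0}) \ {x | 0 < x 1}) =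
        volume (M ∩ {x | 0 < x 0 ∧ x 1 < 0}) := by
      refine le_antisymm ?_ ?_
      · calc volume ((M ∩ {x : Fin 3 → ℝ | 0 < x 0}) \ {x | 0 < x 1}) ≤
            volume ((M ∩ {x | 0 < x 0 ∧ x 1 < 0}) ∪ (M ∩ {x | x 1 = 0})) := by
              refine measure_mono ?_
              rintro x ⟨⟨hx, hx0⟩, hx1⟩
              rw [Set.mem_ofPred_eq] at hx0 hx1
              rcases (not_lt.1 hx1).eq_or_lt with h | h
              · exact Or.inr ⟨hx, h⟩
              · exact Or.inl ⟨hx, hx0, h⟩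
          _ ≤ volume (M ∩ {x | 0 < x 0 ∧ x 1 < 0}) + volume (M ∩ {x | x 1 = 0}) :=
              measure_union_le _ _
          _ = _ := by rw [hnull, add_zero]
      · refine measure_mono ?_
        rintro x ⟨hx, hx0, hx1⟩
        exact ⟨⟨hx, hx0⟩, not_lt.2 hx1.le⟩
    have s3 : M ∩ {x : Fin 3 → ℝ | 0 < x 0} ∩ {x | 0 < x 1} =
        M ∩ {x | 0 < x 0 ∧ 0 < x 1} := by
      ext x
      simp only [Set.mem_inter_iff, Set.mem_ofPred_eq, and_assoc]
    rw [s2, s3] at s1
    have g1 : volume (M ∩ {x : Fin 3 → ℝ | 0 < x 0 ∧ 0 < x 1}) ≠ ⊤ :=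
      ne_top_of_le_ne_top hfin (measure_mono inter_subset_left)
    have g2 : volume (M ∩ {x : Fin 3 → ℝ | 0 < x 0 ∧ x 1 < 0}) ≠ ⊤ :=
      ne_top_of_le_ne_top hfin (measure_mono inter_subset_left)
    rw [← s1, ENNReal.toReal_add g1 g2, hQ] at hhalf
    linarith
  have hQ' : (volume (M' ∩ {x | 0 < x 0 ∧ 0 < x 1})).toReal = (volume M').toReal / 4 := by
    rw [hvol', ← hquad]
    have : M' ∩ {x | 0 < x 0 ∧ 0 < x 1} = fl 1 ⁻¹' (M ∩ {x | 0 < x 0 ∧ x 1 < 0}) := by
      ext x
      simp only [hM', Set.mem_inter_iff, Set.mem_preimage, Set.mem_ofPred_eq, fl]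
      simp
    rw [this, (mp_fl 1).measure_preimage]
    refine (hmeas.inter ?_).nullMeasurableSet
    exact (meas_pos 0).inter (measurableSet_lt (measurable_pi_apply 1) measurable_const)
  have hfin' : volume M' ≠ ⊤ := by rw [hvol']; exact hfin
  -- the point
  have hc' : fl 1 c ∈ M' := by
    rw [hM', Set.mem_preimage]
    convert hc using 1
    funext i
    simp only [fl]
    split_ifs <;> ring
  have e0 : fl 1 c 0 = c 0 := by simp [fl]
  have e1 : fl 1 c 1 = - c 1 := by simp [fl]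
  rcases le_total 0 (c 0) with h0 | h0 <;> rcases le_total 0 (c 1) with h1 | h1
  · rw [abs_of_nonneg h0, abs_of_nonneg h1]
    exact core hC hH hconv hcl hfin hsym hQ hc h0 h1
  · rw [abs_of_nonneg h0, abs_of_nonpos h1]
    have := core hC hH hconv' hcl' hfin' hsym' hQ' hc' (by rw [e0]; exact h0)
      (by rw [e1]; linarith)
    rwa [e0, e1, hvs0, hsec1, hvol'] at this
  · rw [abs_of_nonpos h0, abs_of_nonneg h1]
    have := core hC hH hconv' hcl' hfin' hsym' hQ' (hsym' _ hc')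
      (by rw [Pi.neg_apply, e0]; linarith) (by rw [Pi.neg_apply, e1]; linarith)
    rwa [Pi.neg_apply, Pi.neg_apply, e0, e1, hvs0, hsec1, hvol', neg_neg] at this
  · rw [abs_of_nonpos h0, abs_of_nonpos h1]
    have := core hC hH hconv hcl hfin hsym hQ (hsym _ hc)
      (by rw [Pi.neg_apply]; linarith) (by rw [Pi.neg_apply]; linarith)
    rwa [Pi.neg_apply, Pi.neg_apply] at this

end Pool.Agent.Helper60.MK
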